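import Mathlib

/-!
# Board CBD: a bounded domain of ℂ² with C¹ boundary and a non-injective proper self-map (MP_e1af46)

THEOREM.  There are a bounded domain `D = {ρ < 0}` of `ℂ²`, `ρ` of class `C¹` on `ℂ²` with locally
Hölder continuous derivative and `dρ ≠ 0` on `{ρ = 0}`, and a proper holomorphic map `D → D` which is
not injective: the polynomial map `f (x, y) = (x² - y², x² + y²)`.  So Q1 of MP_e1af46 is false for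
`C^{1,α}` boundaries; by our theorem on domains with holes it is true for all `C¹` boundaries if the
complement is not connected.

PROOF.  Let `N z = |x|² + |y|²`, `u z = log N (f z) - 2 log N z`, `S z = ∑ k, u (fᵏ z) / 2^(k+1)` and
`H z = N z * exp (S z)` (so `log H` is the Green function of the basin of `0`); `H (f z) = (H z)²`,
`H (c z) = |c|² H z`, `N ≤ H ≤ 2 N`.  `D = {H < 1}`, `ρ = H - 1`.  The only point is the derivative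
of `H`.  Let `P z v = x v₁ - y v₀`.  Then `du z v = Re (nu z * P z v) / N z` and
`P (f z) (Df z v) = 4 x y P z v`, so `d(u ∘ fᵏ) z v = Re (F k z * P z v) / N z` with
`F 0 = nu`, `F (k+1) z = F k (f z) * tau z`, `tau z = 2 x y N z / (|x|⁴ + |y|⁴)`.
`|tau z| ≤ 2`, with equality only if `|x| = |y|`; this cannot hold at `z`, `f z` and `f (f z)`:
`|x| = |y|` and `|x² - y²| = |x² + y²|` give `x² = ± i y²`, then `f (f z) = (∓ 4 i y⁴, 0)`.  By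
compactness the product of three consecutive `|tau|` is at most `κ < 8`, so `|F k z| ≤ C θᵏ`,
`θ < 2`, and `dS z v = Re (Phi z * P z v) / N z`, `Phi = ∑ k, F k / 2^(k+1)`.  All functions are
invariant under real positive scaling and Lipschitz on the unit sphere (with constants `C Mᵏ` for
`F k`), so `Phi` is Hölder continuous on the unit sphere.
-/

set_option autoImplicit false

open Set Filter Topology

namespace Pool.CBD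

/-- `ℂ²` -/
abbrev V : Type := Fin 2 → ℂ

/-- the quadratic map `(x, y) ↦ (x² - y², x² + y²)` -/
def f (z : V) : V := ![z 0 ^ 2 - z 1 ^ 2, z 0 ^ 2 + z 1 ^ 2]

/-- `|x|² + |y|²` -/
noncomputable def N (z : V) : ℝ := ‖z 0‖ ^ 2 + ‖z 1‖ ^ 2

/-- the determinant of `z` and `v` -/
def P (z v : V) : ℂ := z 0 * v 1 - z 1 * v 0

/-- the factor of the transformation formula -/
noncomputable def tau (z : V) : ℂ :=
  2 * z 0 * z 1 * ((N z / (‖z 0‖ ^ 4 + ‖z 1‖ ^ 4) : ℝ) : ℂ)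

/-- the coefficient of `du` -/
noncomputable def nu (z : V) : ℂ :=
  -4 * (((‖z 0‖ ^ 2 - ‖z 1‖ ^ 2) / (‖z 0‖ ^ 4 + ‖z 1‖ ^ 4) : ℝ) : ℂ) *
    ((starRingEnd ℂ) (z 0) * (starRingEnd ℂ) (z 1))

/-- `log N (f z) - 2 log N z` -/
noncomputable def u (z : V) : ℝ := Real.log (N (f z)) - 2 * Real.log (N z)

/-- the coefficients of the derivatives of `u ∘ fᵏ` -/
noncomputable def F : ℕ → V → ℂ
  | 0, z => nu z
  | k + 1, z => F k (f z) * tau z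

/-- the sum -/
noncomputable def S (z : V) : ℝ := ∑' k : ℕ, u (f^[k] z) / 2 ^ (k + 1)

/-- the coefficient of `dS` -/
noncomputable def Phi (z : V) : ℂ := ∑' k : ℕ, F k z / 2 ^ (k + 1)

/-- the exponential of the Green function, to the power `2` -/
noncomputable def H (z : V) : ℝ := N z * Real.exp (S z)

/-- normalisation -/
noncomputable def nrm (z : V) : V := (‖z‖⁻¹ : ℝ) • z

/-! ## Algebra -/

/-- ALG: identities.  (1) parallelogram law for `x²`, `y²`.  (2) the derivative of `f`.  (3) `ring`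
after (2).  (6) from (1): `2 (a⁴ + b⁴) ≥ (a² + b²)²`, `a⁴ + b⁴ ≤ (a² + b²)²`. -/
def ALGStmt : Prop :=
  (∀ z : V, N (f z) = 2 * (‖z 0‖ ^ 4 + ‖z 1‖ ^ 4)) ∧
  (∀ z v : V, fderiv ℝ f z v = ![2 * z 0 * v 0 - 2 * z 1 * v 1, 2 * z 0 * v 0 + 2 * z 1 * v 1]) ∧
  (∀ z v : V, P (f z) (fderiv ℝ f z v) = 4 * z 0 * z 1 * P z v) ∧
  ContDiff ℝ 2 f ∧ Differentiable ℂ f ∧
  (∀ z : V, N z ^ 2 ≤ N (f z) ∧ N (f z) ≤ 2 * N z ^ 2) ∧ (∀ z : V, z ≠ 0 → 0 < N z) ∧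
  (∀ z : V, z ≠ 0 → f z ≠ 0) ∧ (∀ z : V, z ≠ 0 → 0 < ‖z 0‖ ^ 4 + ‖z 1‖ ^ 4)

/-- ALH: homogeneity and sizes. -/
def ALHStmt : Prop :=
  (∀ (c : ℂ) (z : V), f (c • z) = c ^ 2 • f z) ∧
  (∀ (c : ℂ) (z : V), N (c • z) = ‖c‖ ^ 2 * N z) ∧ (∀ z : V, ‖z‖ ^ 2 ≤ N z ∧ N z ≤ 2 * ‖z‖ ^ 2) ∧
  (∀ z v : V, ‖P z v‖ ≤ 2 * ‖z‖ * ‖v‖) ∧
  (∀ (t : ℝ) (z : V), 0 < t → tau (t • z) = tau z ∧ nu (t • z) = nu z)

/-- NDR: the derivative of `N`. -/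
def NDRStmt : Prop :=
  ContDiff ℝ 2 N ∧ ∀ z v : V, fderiv ℝ N z v =
    2 * ((starRingEnd ℂ) (z 0) * v 0 + (starRingEnd ℂ) (z 1) * v 1).re

/-- UDR: the derivative of `u`.  Proof: with `A = |x|²`, `B = |y|²`:
`u = log 2 + log (A² + B²) - 2 log (A + B)`, `du = 2 (A - B) (B dA - A dB) / ((A² + B²) (A + B))`, and
`B dA - A dB = - 2 Re (conj x conj y P z v)` (`dA v = 2 Re (conj x v₀)`).  Needs ALG NDR. -/
def UDRStmt : Prop :=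
  ∀ z : V, z ≠ 0 → ContDiffAt ℝ 1 u z ∧ ∀ v : V, fderiv ℝ u z v = (nu z * P z v).re / N z

/-- UBD: `0 ≤ u ≤ log 2`, homogeneity.  Needs ALG ALH. -/
def UBDStmt : Prop :=
  (∀ z : V, z ≠ 0 → 0 ≤ u z ∧ u z ≤ Real.log 2) ∧ (∀ (c : ℂ) (z : V), c ≠ 0 → u (c • z) = u z)

/-- TAU: `2 a b (a² + b²) ≤ (a² + b²)² ≤ 2 (a⁴ + b⁴)`; in the equality case
`(a - b)² (a² + a b + b²) = 0`; `4 |A - B| √(A B) ≤ 2 (A² + B²)`.  Needs ALG. -/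
def TAUStmt : Prop :=
  ∀ z : V, z ≠ 0 → ‖tau z‖ ≤ 2 ∧ (‖tau z‖ = 2 → ‖z 0‖ = ‖z 1‖) ∧ ‖nu z‖ ≤ 2 ∧
    4 * z 0 * z 1 / ((N (f z) : ℝ) : ℂ) = tau z / ((N z : ℝ) : ℂ)

/-- NCH: no chain of three.  Proof: let `X = x²`, `Y = y²`; `|X| = |Y|`, `|X - Y| = |X + Y|` gives
`Re (X conj Y) = 0`, so `X = ± i Y`; `Y ≠ 0`.  Then `f z = ((± i - 1) Y, (± i + 1) Y)`, whose squares
are `∓ 2 i Y²`, `± 2 i Y²`, so `f (f z) = (∓ 4 i Y², 0)`. -/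
def NCHStmt : Prop :=
  ∀ z : V, z ≠ 0 → ‖z 0‖ = ‖z 1‖ → ‖f z 0‖ = ‖f z 1‖ → ‖f (f z) 0‖ ≠ ‖f (f z) 1‖

/-- CTN: continuity off the origin.  Needs ALG. -/
def CTNStmt : Prop := ContinuousOn tau {z | z ≠ 0} ∧ ContinuousOn nu {z | z ≠ 0}

/-- TRI: Proof: the product is continuous on `{z ≠ 0}` and invariant under `z ↦ t z`, `t > 0`
(`f (t z) = t² f z`), so it has a maximum on the compact set `{‖z‖ = 1}`, which is less than `8` by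
TAU and NCH.  Needs ALG ALH TAU NCH CTN. -/
def TRIStmt : Prop :=
  ∃ κ : ℝ, 0 < κ ∧ κ < 8 ∧ ∀ z : V, z ≠ 0 → ‖tau z‖ * ‖tau (f z)‖ * ‖tau (f (f z))‖ ≤ κ

/-- PRD: Proof: `F (k + 3) z = F k (f (f (f z))) * tau (f (f z)) * tau (f z) * tau z`; induction in
steps of three (`Nat.strong_induction_on`), the first three from TAU; `θ < 2` with `κ ≤ θ³`, `1 ≤ θ`.
Needs ALG TAU TRI. -/
def PRDStmt : Prop :=
  ∃ θ C : ℝ, 0 < θ ∧ θ < 2 ∧ 0 < C ∧ ∀ (k : ℕ) (z : V), z ≠ 0 → ‖F k z‖ ≤ C * θ ^ k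

/-- TRM: the derivative of the terms.  Proof: induction on `k` (generalising `z`),
`u (f^[k + 1] y) = u (f^[k] (f y))`, chain rule with ALG (3) and TAU (4).  Needs ALG UDR TAU. -/
def TRMStmt : Prop :=
  ∀ (k : ℕ) (z : V), z ≠ 0 → DifferentiableAt ℝ (fun y => u (f^[k] y)) z ∧
    ∀ v : V, fderiv ℝ (fun y => u (f^[k] y)) z v = (F k z * P z v).re / N z

/-- SUM: the derivative of the sum.  Proof: near `z₀ ≠ 0` use the ball of radius `‖z₀‖ / 2` (convex),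
on which `‖z‖ ≥ ‖z₀‖ / 2`; `hasFDerivAt_tsum_of_isPreconnected` with the bound
`C θ^k / 2^(k+1) * 2 / (‖z₀‖ / 2)` (ALH); summability of `S` from UBD.
Needs ALG ALH TRM PRD UBD. -/
def SUMStmt : Prop :=
  (∀ z : V, z ≠ 0 → DifferentiableAt ℝ S z ∧
    ∀ v : V, fderiv ℝ S z v = (Phi z * P z v).re / N z) ∧
  ∃ C : ℝ, ∀ z : V, z ≠ 0 → ‖Phi z‖ ≤ C ∧ ‖fderiv ℝ S z‖ ≤ C / ‖z‖

/-- FEQ: `S z = u z / 2 + S (f z) / 2`, `0 ≤ S ≤ log 2`.  Needs UBD ALG ALH. -/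
def FEQStmt : Prop :=
  ∀ z : V, z ≠ 0 → S z = u z / 2 + S (f z) / 2 ∧ 0 ≤ S z ∧ S z ≤ Real.log 2 ∧
    ∀ c : ℂ, c ≠ 0 → S (c • z) = S z

/-- HPR: properties of `H`.  Needs FEQ ALG ALH. -/
def HPRStmt : Prop :=
  (∀ z : V, H (f z) = H z ^ 2) ∧ (∀ (c : ℂ) (z : V), H (c • z) = ‖c‖ ^ 2 * H z) ∧
  (∀ z : V, N z ≤ H z ∧ H z ≤ 2 * N z)

/-! ## Hölder continuity -/

/-- NRM: `nrm` is Lipschitz off the origin; `‖z / ‖z‖ - w / ‖w‖‖ ≤ 2 ‖z - w‖ / ‖z‖`. -/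
def NRMStmt : Prop :=
  (∀ z w : V, z ≠ 0 → w ≠ 0 → ‖nrm z - nrm w‖ ≤ 2 * ‖z - w‖ / ‖z‖) ∧
  ∀ z : V, z ≠ 0 → ‖nrm z‖ = 1 ∧ nrm z ≠ 0

/-- LPL: a function which is `C¹` off the origin and invariant under positive scaling is Lipschitz in
`nrm z`.  Proof: the derivative is bounded on the compact set `{1/2 ≤ ‖z‖ ≤ 1}`; for unit vectors
with `‖a - b‖ ≤ 1/2` the segment lies in this set (mean value inequality on the segment); if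
`‖a - b‖ > 1/2` use the bound of `φ` on the sphere.  Needs NRM. -/
def LPLStmt : Prop :=
  ∀ (E : Type) [NormedAddCommGroup E] [NormedSpace ℝ E] (φ : V → E),
    (∀ z, z ≠ 0 → ContDiffAt ℝ 1 φ z) → (∀ (t : ℝ) (z : V), 0 < t → φ (t • z) = φ z) →
    ∃ L : ℝ, 0 < L ∧ ∀ z w : V, z ≠ 0 → w ≠ 0 → ‖φ z - φ w‖ ≤ L * ‖nrm z - nrm w‖

/-- LPF: LPL for `tau` and `nu`, and the map `f` on directions.  Proof for `f`:
`nrm (f z) = nrm (f (nrm z))`, `f` is Lipschitz on the unit ball, `‖f a‖ ≥ c > 0` for `‖a‖ = 1`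
(ALG (6), ALH (3)), NRM.  Needs ALG ALH NRM LPL. -/
def LPFStmt : Prop :=
  ∃ L : ℝ, 1 ≤ L ∧ ∀ z w : V, z ≠ 0 → w ≠ 0 → ‖tau z - tau w‖ ≤ L * ‖nrm z - nrm w‖ ∧
    ‖nu z - nu w‖ ≤ L * ‖nrm z - nrm w‖ ∧ ‖nrm (f z) - nrm (f w)‖ ≤ L * ‖nrm z - nrm w‖

/-- LPK: Proof: induction on `k`: `F (k+1) z - F (k+1) w = (F k (f z) - F k (f w)) tau z +
F k (f w) (tau z - tau w)`, `|F k| ≤ 2^(k+1)`; for instance `M = 4 L`, `C = 4 L`.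
Needs ALG TAU LPF. -/
def LPKStmt : Prop :=
  ∃ C M : ℝ, 0 < C ∧ 1 ≤ M ∧ ∀ (k : ℕ) (z w : V), z ≠ 0 → w ≠ 0 →
    ‖F k z - F k w‖ ≤ C * M ^ k * ‖nrm z - nrm w‖

/-- INT: interpolation.  Proof: `α` with `θ^(1-α) M^α < 2`; `min (p, q) ≤ p^(1-α) q^α`. -/
def INTStmt : Prop :=
  ∀ θ C M C' : ℝ, 0 < θ → θ < 2 → 0 < C → 1 ≤ M → 0 < C' → ∃ α K : ℝ, 0 < α ∧ α ≤ 1 ∧ 0 < K ∧
    ∀ (a b : ℕ → ℂ) (d : ℝ), 0 ≤ d → d ≤ 2 → (∀ k, ‖a k‖ ≤ C * θ ^ k) → (∀ k, ‖b k‖ ≤ C * θ ^ k) →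
      (∀ k, ‖a k - b k‖ ≤ C' * M ^ k * d) →
      ‖(∑' k : ℕ, a k / 2 ^ (k + 1)) - ∑' k : ℕ, b k / 2 ^ (k + 1)‖ ≤ K * d ^ α

/-- HLP: Proof: INT.  Needs PRD LPK INT NRM. -/
def HLPStmt : Prop :=
  ∃ α K : ℝ, 0 < α ∧ α ≤ 1 ∧ 0 < K ∧ ∀ z w : V, z ≠ 0 → w ≠ 0 →
    ‖Phi z - Phi w‖ ≤ K * ‖nrm z - nrm w‖ ^ α

/-- SLP: `S` is Lipschitz in `nrm z`.  Proof: as for LPL, with the bound of the derivative in SUM.
Needs SUM FEQ NRM. -/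
def SLPStmt : Prop :=
  ∃ K : ℝ, 0 < K ∧ ∀ z w : V, z ≠ 0 → w ≠ 0 → |S z - S w| ≤ K * ‖nrm z - nrm w‖

/-- HFD: the derivative of `H`.  Proof: product rule off the origin; at the origin `|H z| ≤ 4 ‖z‖²`,
the derivative is `0` and so is the right side.  Needs SUM NDR HPR ALG ALH. -/
def HFDStmt : Prop :=
  ∀ z : V, DifferentiableAt ℝ H z ∧ ∀ v : V, fderiv ℝ H z v = Real.exp (S z) *
    (2 * ((starRingEnd ℂ) (z 0) * v 0 + (starRingEnd ℂ) (z 1) * v 1).re + (Phi z * P z v).re)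

/-- HHL: the derivative of `H` is locally Hölder continuous.  Proof: let `‖w‖ ≤ ‖z‖ ≤ R`,
`d = ‖z - w‖`; `‖fderiv H z‖ ≤ C ‖z‖` (HFD, SUM, FEQ).  If `d ≥ ‖z‖ / 2`: the difference is at most
`2 C ‖z‖ ≤ 4 C d ≤ C' d^α`.  If `d < ‖z‖ / 2`, both are nonzero, `‖nrm z - nrm w‖ ≤ 2 d / ‖z‖`, and by
SLP, HLP the difference is at most `C (d + ‖z‖ d / ‖z‖ + ‖z‖ (2 d / ‖z‖)^α) ≤ C' d^α`.
Needs HFD SLP HLP SUM FEQ NRM ALH. -/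
def HHLStmt : Prop :=
  ∃ α : ℝ, 0 < α ∧ ∀ R : ℝ, ∃ C : ℝ, ∀ z w : V, ‖z‖ ≤ R → ‖w‖ ≤ R →
    ‖fderiv ℝ H z - fderiv ℝ H w‖ ≤ C * ‖z - w‖ ^ α

/-- HCD: `H` is `C¹`.  Proof: `contDiff_one_iff_fderiv`, HFD, HHL.  Needs HFD HHL. -/
def HCDStmt : Prop := ContDiff ℝ 1 H

/-- DOM: the domain.  Proof: `ρ = H - 1`.  Bounded: `‖z‖² ≤ N z ≤ H z < 1`.  Connected: star-shaped
at `0` (`H (t z) = t² H z`).  `dρ ≠ 0` where `H = 1`: `H (t z) = t² H z`, so the derivative in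
direction `z` is `2 H z = 2`.  Proper: for `L ⊆ D` compact, `H ≤ q < 1` on `L`, and `H z ≤ √q` if
`f z ∈ L`; the set is closed in `{H ≤ √q}`, which is compact.  `f (-z) = f z`, `z = (1/2, 0)`:
`H z ≤ 2 N z = 1/2`.  Needs HPR HCD HHL ALG ALH. -/
def DOMStmt : Prop :=
  ∃ ρ : V → ℝ, ContDiff ℝ 1 ρ ∧
    (∃ α : ℝ, 0 < α ∧ ∀ R : ℝ, ∃ C : ℝ, ∀ z w : V, ‖z‖ ≤ R → ‖w‖ ≤ R →
      ‖fderiv ℝ ρ z - fderiv ℝ ρ w‖ ≤ C * ‖z - w‖ ^ α) ∧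
    (∀ z, ρ z = 0 → fderiv ℝ ρ z ≠ 0) ∧
    Bornology.IsBounded {z | ρ z < 0} ∧ IsConnected {z | ρ z < 0} ∧
    MapsTo f {z | ρ z < 0} {z | ρ z < 0} ∧ Differentiable ℂ f ∧
    (∀ L : Set V, L ⊆ {z | ρ z < 0} → IsCompact L → IsCompact ({z | ρ z < 0} ∩ f ⁻¹' L)) ∧
    ∃ z w : V, ρ z < 0 ∧ ρ w < 0 ∧ z ≠ w ∧ f z = f w

end Pool.CBD
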